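import Pool.Agent.H18N.Stm
import Pool.Agent.N73.PF.Exq

/-!
# The ring of integers of `L` outside `W` (project JN)

Versions of `ev_surj`, `ex_psi`, `eq_ker` of `N73/PF` for `SqW` and `S_INTW`: at a prime which does not
contain `W` the ring `𝓞 F [θ]` is as good as `𝓞 L`.
-/

set_option autoImplicit false
set_option linter.all false

open Polynomial IsDedekindDomain NumberField WithZero
open scoped Classical

namespace Pool.Agent.H59W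

open Pool.Agent.N73.PF
open Pool.Agent.N783.PF
open Pool.Agent.H18N (SqW S_INTW)

section main

variable {F L : Type} [Field F] [NumberField F] [Field L] [NumberField L] [Algebra F L]
  {g W : ℕ} {f : (𝓞 F)[X]} {θ : L}

/-- `W` is not in `𝔮 q` -/
theorem W_notMem {𝔭 : Ideal (𝓞 F)} (hp : 𝔭.IsPrime) {q : ℕ} (hq : q.Prime) (hW0 : 0 < W)
    (hW : W < q) (hmem : (q : 𝓞 F) ∈ 𝔭) : (W : 𝓞 F) ∉ 𝔭 := by
  intro h
  have h1 : IsCoprime (W : ℤ) (q : ℤ) := by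
    rw [Nat.isCoprime_iff_coprime]
    exact (Nat.coprime_of_lt_prime hW0.ne' hW hq).symm
  obtain ⟨a, b, hab⟩ := h1
  apply hp.ne_top
  rw [Ideal.eq_top_iff_one]
  have h2 : (a : 𝓞 F) * (W : 𝓞 F) + (b : 𝓞 F) * (q : 𝓞 F) = 1 := by exact_mod_cast congrArg (Int.cast : ℤ → 𝓞 F) hab
  rw [← h2]
  exact 𝔭.add_mem (𝔭.mul_mem_left _ h) (𝔭.mul_mem_left _ hmem)

/-- inverse of `W` modulo `𝔭` -/
theorem inv_W {𝔭 : Ideal (𝓞 F)} (hmax : 𝔭.IsMaximal) (hW : (W : 𝓞 F) ∉ 𝔭) :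
    ∃ c : 𝓞 F, c * W - 1 ∈ 𝔭 := by
  obtain ⟨c, hc⟩ := hmax.exists_inv hW
  obtain ⟨i, hi, hci⟩ := hc
  refine ⟨c, ?_⟩
  have : c * (W : 𝓞 F) - 1 = -i := by rw [← hci]; ring
  rw [this]
  exact 𝔭.neg_mem hi

theorem rd_inv {𝔭 : Ideal (𝓞 F)} {c : 𝓞 F} (hc : c * W - 1 ∈ 𝔭) :
    rd 𝔭 (C c) * rd 𝔭 (C (W : 𝓞 F)) = 1 := by
  rw [rd_C, rd_C, ← C_mul, ← map_mul, ← C_1, ← map_one (Ideal.Quotient.mk 𝔭)]
  congr 1
  exact Ideal.Quotient.eq.2 hc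

/-- `W z` is the value of a polynomial -/
theorem ev_surjW (hI : S_INTW) (h : IsGen g f θ) (hsq : SqW g W f) {t : 𝓞 L}
    (ht : algebraMap (𝓞 L) L t = θ) (z : 𝓞 L) : ∃ p : (𝓞 F)[X], ev t p = (W : 𝓞 L) * z := by
  obtain ⟨v, hv⟩ := hI g W F L f θ h hsq _ z.isIntegral_coe
  refine crd_poly ht (v := v) ?_
  rw [map_mul, map_natCast]
  exact hv

theorem ev_W (t : 𝓞 L) : ev (R := 𝓞 F) t (C (W : 𝓞 F)) = (W : 𝓞 L) := by
  rw [ev_C, map_natCast]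

/-- the map to `AdjoinRoot m` for a factor `m` of `f` modulo `𝔭` -/
theorem ex_psiW (hI : S_INTW) (h : IsGen g f θ) (hsq : SqW g W f) {t : 𝓞 L}
    (ht : algebraMap (𝓞 L) L t = θ) {𝔭 : Ideal (𝓞 F)} (hmax : 𝔭.IsMaximal)
    (hW : (W : 𝓞 F) ∉ 𝔭) (m : (𝓞 F ⧸ 𝔭)[X])
    (hm : m ∣ rd 𝔭 f) : ∃ ψ : 𝓞 L →+* AdjoinRoot m,
      ∀ p : (𝓞 F)[X], ψ (ev t p) = AdjoinRoot.mk m (rd 𝔭 p) := by
  obtain ⟨c, hc⟩ := inv_W hmax hW
  let φ : (𝓞 F)[X] →+* AdjoinRoot m :=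
    (AdjoinRoot.mk m).comp (mapRingHom (Ideal.Quotient.mk 𝔭))
  have hφ : ∀ p, φ p = AdjoinRoot.mk m (rd 𝔭 p) := fun p => rfl
  have huw : φ (C c) * φ (C (W : 𝓞 F)) = 1 := by
    rw [hφ, hφ, ← map_mul, rd_inv hc, map_one]
  have hk : ∀ p p' : (𝓞 F)[X], ev t p = ev t p' → φ p = φ p' := by
    intro p p' hpp
    have h0 : ev t (p - p') = 0 := by rw [map_sub, hpp, sub_self]
    obtain ⟨d, hd⟩ := ev_ker h ht h0
    have h1 : φ (p - p') = 0 := by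
      rw [hd, map_mul, hφ f, AdjoinRoot.mk_eq_zero.2 hm, zero_mul]
    rwa [map_sub, sub_eq_zero] at h1
  choose P hP using ev_surjW hI h hsq ht
  refine ⟨{ toFun := fun z => φ (C c) * φ (P z), map_one' := ?_, map_mul' := ?_,
            map_zero' := ?_, map_add' := ?_ }, ?_⟩
  · rw [hk (P 1) (C (W : 𝓞 F)) (by rw [hP, ev_W, mul_one]), huw]
  · intro a b
    have h1 : φ (C (W : 𝓞 F)) * φ (P (a * b)) = φ (P a) * φ (P b) := by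
      rw [← map_mul, ← map_mul]
      apply hk
      rw [map_mul, map_mul, ev_W, hP, hP, hP]
      ring
    calc φ (C c) * φ (P (a * b)) = (φ (C c) * φ (C (W : 𝓞 F))) * (φ (C c) * φ (P (a * b))) := by
          rw [huw, one_mul]
      _ = φ (C c) * φ (C c) * (φ (C (W : 𝓞 F)) * φ (P (a * b))) := by ring
      _ = φ (C c) * φ (P a) * (φ (C c) * φ (P b)) := by rw [h1]; ring
  · rw [hk (P 0) 0 (by rw [hP, mul_zero, map_zero]), map_zero, mul_zero]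
  · intro a b
    rw [hk (P (a + b)) (P a + P b) (by rw [hP, map_add, hP, hP, mul_add]), map_add, mul_add]
  · intro p
    show φ (C c) * φ (P (ev t p)) = _
    rw [hk (P (ev t p)) (C (W : 𝓞 F) * p) (by rw [hP, map_mul, ev_W]), map_mul, ← mul_assoc, huw,
      one_mul, hφ]

/-- a prime over `𝔭` which contains `m(t)` -/
theorem eq_kerW (hI : S_INTW) (h : IsGen g f θ) (hsq : SqW g W f) {t : 𝓞 L}
    (ht : algebraMap (𝓞 L) L t = θ) {𝔭 : Ideal (𝓞 F)} (hmax : 𝔭.IsMaximal)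
    (hW : (W : 𝓞 F) ∉ 𝔭) {m : (𝓞 F)[X]}
    (hm : Irreducible (rd 𝔭 m)) {ψ : 𝓞 L →+* AdjoinRoot (rd 𝔭 m)}
    (hψ : ∀ p : (𝓞 F)[X], ψ (ev t p) = AdjoinRoot.mk (rd 𝔭 m) (rd 𝔭 p))
    {𝔓 : HeightOneSpectrum (𝓞 L)} (hov : Ov 𝔭 𝔓) (hmem : ev t m ∈ 𝔓.asIdeal) :
    𝔓.asIdeal = RingHom.ker ψ := by
  symm
  refine (ker_max hmax hm hψ).eq_of_le 𝔓.isPrime.ne_top fun z hz => ?_
  obtain ⟨p, hp⟩ := ev_surjW hI h hsq ht z
  have h1 : ψ (ev t p) = 0 := by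
    rw [RingHom.mem_ker] at hz
    rw [hp, map_mul, hz, mul_zero]
  rw [hψ, AdjoinRoot.mk_eq_zero] at h1
  have h2 : (W : 𝓞 L) * z ∈ 𝔓.asIdeal := by
    rw [← hp]
    exact mem_of_dvd hov hmem h1
  refine (𝔓.isPrime.mem_or_mem h2).resolve_left fun h3 => hW ?_
  rw [← ov_iff hmax hov, map_natCast]
  exact h3

end main

end Pool.Agent.H59W
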